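import Mathlib

/-!
# Taylor bounds for sine and cosine (project LC, MP_599705)
-/

set_option autoImplicit false

namespace Helper83.LC

open Real

lemma nonneg_of_deriv {f g : ℝ → ℝ} (hf : ∀ x, HasDerivAt f (g x) x) (h0 : f 0 = 0)
    (hg : ∀ x, 0 ≤ x → 0 ≤ g x) : ∀ x, 0 ≤ x → 0 ≤ f x := by
  intro x hx
  have hm : MonotoneOn f (Set.Ici 0) := by
    refine monotoneOn_of_deriv_nonneg (convex_Ici 0)
      (fun y _ => (hf y).continuousAt.continuousWithinAt)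
      (fun y _ => (hf y).differentiableAt.differentiableWithinAt) ?_
    intro y hy
    rw [(hf y).deriv]
    rw [interior_Ici] at hy
    exact hg y (le_of_lt hy)
  have := hm (Set.mem_Ici.2 le_rfl) (Set.mem_Ici.2 hx) hx
  rwa [h0] at this

lemma sin_ge3 : ∀ x : ℝ, 0 ≤ x → 0 ≤ sin x - (x - x ^ 3 / 6) := by
  refine nonneg_of_deriv (g := fun x => cos x - (1 - x ^ 2 / 2)) (fun x => ?_) (by simp) ?_
  · have h := (hasDerivAt_sin x).sub ((hasDerivAt_id x).sub ((hasDerivAt_pow 3 x).div_const 6))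
    refine h.congr_deriv ?_
    norm_num
    try ring
  · intro x _
    have := one_sub_sq_div_two_le_cos (x := x)
    linarith

lemma cos_le4 : ∀ x : ℝ, 0 ≤ x → 0 ≤ (1 - x ^ 2 / 2 + x ^ 4 / 24) - cos x := by
  refine nonneg_of_deriv (g := fun x => sin x - (x - x ^ 3 / 6)) (fun x => ?_) (by simp) sin_ge3
  have h := ((((hasDerivAt_const x (1 : ℝ)).sub ((hasDerivAt_pow 2 x).div_const 2)).add
    ((hasDerivAt_pow 4 x).div_const 24))).sub (hasDerivAt_cos x)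
  refine h.congr_deriv ?_
  norm_num
  try ring

lemma sin_le5 : ∀ x : ℝ, 0 ≤ x → 0 ≤ (x - x ^ 3 / 6 + x ^ 5 / 120) - sin x := by
  refine nonneg_of_deriv (g := fun x => (1 - x ^ 2 / 2 + x ^ 4 / 24) - cos x) (fun x => ?_)
    (by simp) cos_le4
  have h := ((((hasDerivAt_id x).sub ((hasDerivAt_pow 3 x).div_const 6)).add
    ((hasDerivAt_pow 5 x).div_const 120))).sub (hasDerivAt_sin x)
  refine h.congr_deriv ?_
  norm_num
  try ring

lemma cos_ge6 : ∀ x : ℝ, 0 ≤ x →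
    0 ≤ cos x - (1 - x ^ 2 / 2 + x ^ 4 / 24 - x ^ 6 / 720) := by
  refine nonneg_of_deriv (g := fun x => (x - x ^ 3 / 6 + x ^ 5 / 120) - sin x) (fun x => ?_)
    (by simp) sin_le5
  have h := (hasDerivAt_cos x).sub ((((hasDerivAt_const x (1 : ℝ)).sub
    ((hasDerivAt_pow 2 x).div_const 2)).add ((hasDerivAt_pow 4 x).div_const 24)).sub
    ((hasDerivAt_pow 6 x).div_const 720))
  refine h.congr_deriv ?_
  norm_num
  try ring

lemma sin_ge7 : ∀ x : ℝ, 0 ≤ x →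
    0 ≤ sin x - (x - x ^ 3 / 6 + x ^ 5 / 120 - x ^ 7 / 5040) := by
  refine nonneg_of_deriv (g := fun x => cos x - (1 - x ^ 2 / 2 + x ^ 4 / 24 - x ^ 6 / 720))
    (fun x => ?_) (by simp) cos_ge6
  have h := (hasDerivAt_sin x).sub ((((hasDerivAt_id x).sub
    ((hasDerivAt_pow 3 x).div_const 6)).add ((hasDerivAt_pow 5 x).div_const 120)).sub
    ((hasDerivAt_pow 7 x).div_const 5040))
  refine h.congr_deriv ?_
  norm_num
  try ring

lemma cos_le8 : ∀ x : ℝ, 0 ≤ x →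
    0 ≤ (1 - x ^ 2 / 2 + x ^ 4 / 24 - x ^ 6 / 720 + x ^ 8 / 40320) - cos x := by
  refine nonneg_of_deriv (g := fun x => sin x - (x - x ^ 3 / 6 + x ^ 5 / 120 - x ^ 7 / 5040))
    (fun x => ?_) (by simp) sin_ge7
  have h := (((((hasDerivAt_const x (1 : ℝ)).sub
    ((hasDerivAt_pow 2 x).div_const 2)).add ((hasDerivAt_pow 4 x).div_const 24)).sub
    ((hasDerivAt_pow 6 x).div_const 720)).add ((hasDerivAt_pow 8 x).div_const 40320)).sub
    (hasDerivAt_cos x)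
  refine h.congr_deriv ?_
  norm_num
  try ring

lemma sin_le9 : ∀ x : ℝ, 0 ≤ x →
    0 ≤ (x - x ^ 3 / 6 + x ^ 5 / 120 - x ^ 7 / 5040 + x ^ 9 / 362880) - sin x := by
  refine nonneg_of_deriv (g := fun x =>
    (1 - x ^ 2 / 2 + x ^ 4 / 24 - x ^ 6 / 720 + x ^ 8 / 40320) - cos x)
    (fun x => ?_) (by simp) cos_le8
  have h := (((((hasDerivAt_id x).sub
    ((hasDerivAt_pow 3 x).div_const 6)).add ((hasDerivAt_pow 5 x).div_const 120)).sub
    ((hasDerivAt_pow 7 x).div_const 5040)).add ((hasDerivAt_pow 9 x).div_const 362880)).sub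
    (hasDerivAt_sin x)
  refine h.congr_deriv ?_
  norm_num
  try ring

lemma cos_ge10 : ∀ x : ℝ, 0 ≤ x →
    0 ≤ cos x - (1 - x ^ 2 / 2 + x ^ 4 / 24 - x ^ 6 / 720 + x ^ 8 / 40320 -
      x ^ 10 / 3628800) := by
  refine nonneg_of_deriv (g := fun x =>
    (x - x ^ 3 / 6 + x ^ 5 / 120 - x ^ 7 / 5040 + x ^ 9 / 362880) - sin x)
    (fun x => ?_) (by simp) sin_le9
  have h := (hasDerivAt_cos x).sub ((((((hasDerivAt_const x (1 : ℝ)).sub
    ((hasDerivAt_pow 2 x).div_const 2)).add ((hasDerivAt_pow 4 x).div_const 24)).sub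
    ((hasDerivAt_pow 6 x).div_const 720)).add ((hasDerivAt_pow 8 x).div_const 40320)).sub
    ((hasDerivAt_pow 10 x).div_const 3628800))
  refine h.congr_deriv ?_
  norm_num
  try ring

lemma sin_ge11 : ∀ x : ℝ, 0 ≤ x →
    0 ≤ sin x - (x - x ^ 3 / 6 + x ^ 5 / 120 - x ^ 7 / 5040 + x ^ 9 / 362880 -
      x ^ 11 / 39916800) := by
  refine nonneg_of_deriv (g := fun x =>
    cos x - (1 - x ^ 2 / 2 + x ^ 4 / 24 - x ^ 6 / 720 + x ^ 8 / 40320 - x ^ 10 / 3628800))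
    (fun x => ?_) (by simp) cos_ge10
  have h := (hasDerivAt_sin x).sub ((((((hasDerivAt_id x).sub
    ((hasDerivAt_pow 3 x).div_const 6)).add ((hasDerivAt_pow 5 x).div_const 120)).sub
    ((hasDerivAt_pow 7 x).div_const 5040)).add ((hasDerivAt_pow 9 x).div_const 362880)).sub
    ((hasDerivAt_pow 11 x).div_const 39916800))
  refine h.congr_deriv ?_
  norm_num
  try ring

lemma cos_le12 : ∀ x : ℝ, 0 ≤ x →
    0 ≤ (1 - x ^ 2 / 2 + x ^ 4 / 24 - x ^ 6 / 720 + x ^ 8 / 40320 -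
      x ^ 10 / 3628800 + x ^ 12 / 479001600) - cos x := by
  refine nonneg_of_deriv (g := fun x =>
    sin x - (x - x ^ 3 / 6 + x ^ 5 / 120 - x ^ 7 / 5040 + x ^ 9 / 362880 - x ^ 11 / 39916800))
    (fun x => ?_) (by simp) sin_ge11
  have h := (((((((hasDerivAt_const x (1 : ℝ)).sub
    ((hasDerivAt_pow 2 x).div_const 2)).add ((hasDerivAt_pow 4 x).div_const 24)).sub
    ((hasDerivAt_pow 6 x).div_const 720)).add ((hasDerivAt_pow 8 x).div_const 40320)).sub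
    ((hasDerivAt_pow 10 x).div_const 3628800)).add ((hasDerivAt_pow 12 x).div_const 479001600)).sub
    (hasDerivAt_cos x)
  refine h.congr_deriv ?_
  norm_num
  try ring

/-- combined: intervals for `sin x` and `cos x` from Taylor polynomials -/
lemma sincos_bd (x : ℝ) (hx : 0 ≤ x) :
    x - x ^ 3 / 6 + x ^ 5 / 120 - x ^ 7 / 5040 + x ^ 9 / 362880 - x ^ 11 / 39916800 ≤ sin x ∧
    sin x ≤ x - x ^ 3 / 6 + x ^ 5 / 120 - x ^ 7 / 5040 + x ^ 9 / 362880 ∧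
    1 - x ^ 2 / 2 + x ^ 4 / 24 - x ^ 6 / 720 + x ^ 8 / 40320 - x ^ 10 / 3628800 ≤ cos x ∧
    cos x ≤ 1 - x ^ 2 / 2 + x ^ 4 / 24 - x ^ 6 / 720 + x ^ 8 / 40320 - x ^ 10 / 3628800 +
      x ^ 12 / 479001600 := by
  refine ⟨?_, ?_, ?_, ?_⟩
  · have := sin_ge11 x hx; linarith
  · have := sin_le9 x hx; linarith
  · have := cos_ge10 x hx; linarith
  · have := cos_le12 x hx; linarith

lemma sin2_bd {t sl su cl cu : ℝ} (h1 : sl ≤ sin t) (h2 : sin t ≤ su) (h3 : cl ≤ cos t)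
    (h4 : cos t ≤ cu) (h5 : 0 ≤ sl) (h6 : 0 ≤ cl) :
    2 * sl * cl ≤ sin (2 * t) ∧ sin (2 * t) ≤ 2 * su * cu := by
  rw [sin_two_mul]
  have a1 : 0 ≤ sin t := h5.trans h1
  have a2 : 0 ≤ cos t := h6.trans h3
  constructor
  · have := mul_le_mul h1 h3 h6 a1
    nlinarith
  · have := mul_le_mul h2 h4 a2 (a1.trans h2)
    nlinarith

lemma sin3_bd {t sl su : ℝ} (h1 : sl ≤ sin t) (h2 : sin t ≤ su) (h5 : 0 ≤ sl) :
    3 * sl - 4 * su ^ 3 ≤ sin (3 * t) ∧ sin (3 * t) ≤ 3 * su - 4 * sl ^ 3 := by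
  rw [sin_three_mul]
  have a1 : 0 ≤ sin t := h5.trans h1
  have b1 : sin t ^ 3 ≤ su ^ 3 := pow_le_pow_left₀ a1 h2 3
  have b2 : sl ^ 3 ≤ sin t ^ 3 := pow_le_pow_left₀ h5 h1 3
  constructor <;> linarith

/-- interval for the exponential on `[0, 1]` -/
lemma exp_bd (x : ℝ) (h0 : 0 ≤ x) (h1 : x ≤ 1) :
    1 + x + x ^ 2 / 2 + x ^ 3 / 6 + x ^ 4 / 24 + x ^ 5 / 120 + x ^ 6 / 720 + x ^ 7 / 5040 +
      x ^ 8 / 40320 + x ^ 9 / 362880 ≤ exp x ∧
    exp x ≤ 1 + x + x ^ 2 / 2 + x ^ 3 / 6 + x ^ 4 / 24 + x ^ 5 / 120 + x ^ 6 / 720 +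
      x ^ 7 / 5040 + x ^ 8 / 40320 + x ^ 9 / 362880 + x ^ 10 * 11 / 36288000 := by
  have e1 := Real.sum_le_exp_of_nonneg h0 10
  have e2 := Real.exp_bound' h0 h1 (n := 10) (by norm_num)
  simp only [Finset.sum_range_succ, Finset.sum_range_zero, Nat.factorial] at e1 e2
  norm_num at e1 e2
  constructor
  · linarith
  · linarith

end Helper83.LC
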