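import Mathlib
import Pool.Agent.Helper91.LC.Defs
import Pool.Agent.Helper83.LC.Trig

/-!
# LC-14 (project LC, MP_599705): numerical certificate, case A
-/

set_option autoImplicit false

namespace Helper83.LC

open Real MeasureTheory Pool.Agent.Helper91.LC

/-- constant part of `aff` -/
noncomputable def al (x : ℝ) : ℝ := x - log (1 + x) + x / (2 * (1 + x))

/-- slope of `aff` -/
noncomputable def be (x : ℝ) : ℝ := x / (2 * (1 + x)) * exp (2 * x)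

lemma aff_eq (x s : ℝ) : aff x s = al x - be x * s := by
  unfold aff al be
  ring

lemma piece {R ρ b : ℝ} {V : ℝ → ℝ} (hV : Continuous V)
    (hVx : ∀ θ, |θ - b| ≤ 1.1 → ∀ x, 0 ≤ x →
      aff x (R ^ 2 + ρ ^ 2 - 2 * R * ρ * cos (θ - b)) ≤ V θ)
    {x t₁ t₂ : ℝ} (hx : 0 ≤ x) (h1 : 0 ≤ t₁) (h12 : t₁ ≤ t₂) (h2 : t₂ ≤ 1.1) :
    2 * ((al x - be x * (R ^ 2 + ρ ^ 2)) *
        ((t₂ - t₁) + cos (2 * b) * ((sin (2 * t₂) - sin (2 * t₁)) / 2)) +
      2 * R * ρ * be x * ((sin t₂ - sin t₁) +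
        cos (2 * b) * ((sin (3 * t₂) - sin (3 * t₁)) / 6 + (sin t₂ - sin t₁) / 2))) ≤
      ∫ t in t₁..t₂, ((1 + cos (2 * (b + t))) * V (b + t) + (1 + cos (2 * (b - t))) * V (b - t)) := by
  set A := al x - be x * (R ^ 2 + ρ ^ 2) with hA
  set B := 2 * R * ρ * be x with hB
  set c := cos (2 * b) with hc
  have hderiv : ∀ t ∈ Set.uIcc t₁ t₂, HasDerivAt
      (fun t => 2 * (A * (t + c * (sin (2 * t) / 2)) +
        B * (sin t + c * (sin (3 * t) / 6 + sin t / 2))))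
      (2 * ((1 + c * cos (2 * t)) * (A + B * cos t))) t := by
    intro t _
    have e2 : HasDerivAt (fun t : ℝ => sin (2 * t)) (cos (2 * t) * (2 * 1)) t :=
      ((hasDerivAt_id t).const_mul 2).sin
    have e3 : HasDerivAt (fun t : ℝ => sin (3 * t)) (cos (3 * t) * (3 * 1)) t :=
      ((hasDerivAt_id t).const_mul 3).sin
    have e := (((hasDerivAt_id t).add ((e2.div_const 2).const_mul c)).const_mul A).add
      (((hasDerivAt_sin t).add (((e3.div_const 6).add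
        ((hasDerivAt_sin t).div_const 2)).const_mul c)).const_mul B)
    refine (e.const_mul 2).congr_deriv ?_
    have h3 : cos (3 * t) = 4 * cos t ^ 3 - 3 * cos t := cos_three_mul t
    have h2' : cos (2 * t) = 2 * cos t ^ 2 - 1 := cos_two_mul t
    rw [h3, h2']
    ring
  have hcont : Continuous (fun t => 2 * ((1 + c * cos (2 * t)) * (A + B * cos t))) := by
    fun_prop
  have hint := intervalIntegral.integral_eq_sub_of_hasDerivAt hderiv
    (hcont.intervalIntegrable t₁ t₂)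
  have hgcont : Continuous (fun t => (1 + cos (2 * (b + t))) * V (b + t) +
      (1 + cos (2 * (b - t))) * V (b - t)) := by
    fun_prop
  have hmono : ∫ t in t₁..t₂, 2 * ((1 + c * cos (2 * t)) * (A + B * cos t)) ≤
      ∫ t in t₁..t₂, ((1 + cos (2 * (b + t))) * V (b + t) +
        (1 + cos (2 * (b - t))) * V (b - t)) := by
    refine intervalIntegral.integral_mono_on h12 (hcont.intervalIntegrable _ _)
      (hgcont.intervalIntegrable _ _) ?_
    intro t ht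
    have ht0 : 0 ≤ t := h1.trans ht.1
    have ht1 : t ≤ 1.1 := ht.2.trans h2
    have v1 := hVx (b + t) (by rw [add_sub_cancel_left, abs_of_nonneg ht0]; exact ht1) x hx
    have v2 := hVx (b - t) (by
      rw [show b - t - b = -t by ring, abs_neg, abs_of_nonneg ht0]; exact ht1) x hx
    rw [add_sub_cancel_left, aff_eq] at v1
    rw [show b - t - b = -t by ring, cos_neg, aff_eq] at v2
    have v1' : A + B * cos t ≤ V (b + t) := by
      refine le_trans (le_of_eq ?_) v1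
      rw [hA, hB]
      ring
    have v2' : A + B * cos t ≤ V (b - t) := by
      refine le_trans (le_of_eq ?_) v2
      rw [hA, hB]
      ring
    have w1 : 0 ≤ 1 + cos (2 * (b + t)) := by
      have := neg_one_le_cos (2 * (b + t)); linarith
    have w2 : 0 ≤ 1 + cos (2 * (b - t)) := by
      have := neg_one_le_cos (2 * (b - t)); linarith
    have m1 := mul_le_mul_of_nonneg_left v1' w1
    have m2 := mul_le_mul_of_nonneg_left v2' w2
    have hsum : cos (2 * (b + t)) + cos (2 * (b - t)) = 2 * (c * cos (2 * t)) := by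
      rw [show 2 * (b + t) = 2 * b + 2 * t by ring, show 2 * (b - t) = 2 * b - 2 * t by ring,
        cos_add, cos_sub, hc]
      ring
    calc 2 * ((1 + c * cos (2 * t)) * (A + B * cos t))
        = (2 + 2 * (c * cos (2 * t))) * (A + B * cos t) := by ring
      _ = (2 + (cos (2 * (b + t)) + cos (2 * (b - t)))) * (A + B * cos t) := by rw [hsum]
      _ = (1 + cos (2 * (b + t))) * (A + B * cos t) +
          (1 + cos (2 * (b - t))) * (A + B * cos t) := by ring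
      _ ≤ _ := add_le_add m1 m2
  rw [hint] at hmono
  refine le_trans (le_of_eq ?_) hmono
  ring

lemma fold {b : ℝ} {g : ℝ → ℝ} (hg : Continuous g) :
    ∫ θ in (b - 1.1)..(b + 1.1), g θ = ∫ t in (0 : ℝ)..1.1, (g (b + t) + g (b - t)) := by
  have h1 : ∫ θ in (b - 1.1)..(b + 1.1), g θ =
      (∫ θ in (b - 1.1)..b, g θ) + ∫ θ in b..(b + 1.1), g θ :=
    (intervalIntegral.integral_add_adjacent_intervals (hg.intervalIntegrable _ _)
      (hg.intervalIntegrable _ _)).symm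
  have h2 : ∫ t in (0 : ℝ)..1.1, g (b + t) = ∫ θ in b..(b + 1.1), g θ := by
    rw [intervalIntegral.integral_comp_add_left (fun θ => g θ) b, add_zero]
  have h3 : ∫ t in (0 : ℝ)..1.1, g (b - t) = ∫ θ in (b - 1.1)..b, g θ := by
    rw [intervalIntegral.integral_comp_sub_left (fun θ => g θ) b, sub_zero]
  have c1 : Continuous (fun t : ℝ => g (b + t)) := by fun_prop
  have c2 : Continuous (fun t : ℝ => g (b - t)) := by fun_prop
  rw [h1, intervalIntegral.integral_add (c1.intervalIntegrable _ _) (c2.intervalIntegrable _ _),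
    h2, h3]
  ring

/-- interval for the constants `al` and `be` -/
lemma albe_bd {x el eu Ll Lu : ℝ} (h0 : 0 ≤ x) (h1 : x ≤ 1)
    (hel0 : 0 ≤ el)
    (hel : el ≤ 1 + x + x ^ 2 / 2 + x ^ 3 / 6 + x ^ 4 / 24 + x ^ 5 / 120 + x ^ 6 / 720 +
      x ^ 7 / 5040 + x ^ 8 / 40320 + x ^ 9 / 362880)
    (heu : 1 + x + x ^ 2 / 2 + x ^ 3 / 6 + x ^ 4 / 24 + x ^ 5 / 120 + x ^ 6 / 720 +
      x ^ 7 / 5040 + x ^ 8 / 40320 + x ^ 9 / 362880 + x ^ 10 * 11 / 36288000 ≤ eu)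
    (hLl0 : 0 ≤ Ll) (hLl1 : Ll ≤ 1) (hLu0 : 0 ≤ Lu) (hLu1 : Lu ≤ 1)
    (hLl : 1 + Ll + Ll ^ 2 / 2 + Ll ^ 3 / 6 + Ll ^ 4 / 24 + Ll ^ 5 / 120 + Ll ^ 6 / 720 +
      Ll ^ 7 / 5040 + Ll ^ 8 / 40320 + Ll ^ 9 / 362880 + Ll ^ 10 * 11 / 36288000 ≤ 1 + x)
    (hLu : 1 + x ≤ 1 + Lu + Lu ^ 2 / 2 + Lu ^ 3 / 6 + Lu ^ 4 / 24 + Lu ^ 5 / 120 + Lu ^ 6 / 720 +
      Lu ^ 7 / 5040 + Lu ^ 8 / 40320 + Lu ^ 9 / 362880) :
    x - Lu + x / (2 * (1 + x)) ≤ al x ∧ al x ≤ x - Ll + x / (2 * (1 + x)) ∧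
    x / (2 * (1 + x)) * el ^ 2 ≤ be x ∧ be x ≤ x / (2 * (1 + x)) * eu ^ 2 := by
  have hx : (0 : ℝ) < 1 + x := by linarith
  obtain ⟨e1, e2⟩ := exp_bd x h0 h1
  obtain ⟨l1, l2⟩ := exp_bd Ll hLl0 hLl1
  obtain ⟨u1, u2⟩ := exp_bd Lu hLu0 hLu1
  have a1 : log (1 + x) ≤ Lu := (log_le_iff_le_exp hx).2 (hLu.trans u1)
  have a2 : Ll ≤ log (1 + x) := (le_log_iff_exp_le hx).2 (l2.trans hLl)
  have ex : exp (2 * x) = exp x ^ 2 := by
    rw [← exp_nat_mul]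
    norm_num
  have q : 0 ≤ x / (2 * (1 + x)) := by positivity
  have b1 : el ^ 2 ≤ exp x ^ 2 := pow_le_pow_left₀ hel0 (hel.trans e1) 2
  have b2 : exp x ^ 2 ≤ eu ^ 2 := pow_le_pow_left₀ (exp_pos x).le (e2.trans heu) 2
  refine ⟨?_, ?_, ?_, ?_⟩
  · unfold al; linarith
  · unfold al; linarith
  · unfold be; rw [ex]; exact mul_le_mul_of_nonneg_left b1 q
  · unfold be; rw [ex]; exact mul_le_mul_of_nonneg_left b2 q

lemma ab1 : 0.488872 ≤ al 0.89 ∧ al 0.89 ≤ 0.488874 ∧ 1.396181 ≤ be 0.89 ∧ be 0.89 ≤ 1.396185 := by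
  obtain ⟨h1, h2, h3, h4⟩ := albe_bd (x := 0.89) (el := 2.435129) (eu := 2.435130)
    (Ll := 0.636576) (Lu := 0.636577) (by norm_num) (by norm_num) (by norm_num) (by norm_num)
    (by norm_num) (by norm_num) (by norm_num) (by norm_num) (by norm_num) (by norm_num)
    (by norm_num)
  norm_num at h1 h2 h3 h4 ⊢
  refine ⟨?_, ?_, ?_, ?_⟩ <;> linarith

lemma ab2 : 0.428454 ≤ al 0.79 ∧ al 0.79 ≤ 0.428456 ∧ 1.071343 ≤ be 0.79 ∧ be 0.79 ≤ 1.071347 := by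
  obtain ⟨h1, h2, h3, h4⟩ := albe_bd (x := 0.79) (el := 2.203396) (eu := 2.203397)
    (Ll := 0.582215) (Lu := 0.582216) (by norm_num) (by norm_num) (by norm_num) (by norm_num)
    (by norm_num) (by norm_num) (by norm_num) (by norm_num) (by norm_num) (by norm_num)
    (by norm_num)
  norm_num at h1 h2 h3 h4 ⊢
  refine ⟨?_, ?_, ?_, ?_⟩ <;> linarith

lemma ab3 : 0.351977 ≤ al 0.66 ∧ al 0.66 ≤ 0.351979 ∧ 0.744172 ≤ be 0.66 ∧ be 0.66 ≤ 0.744176 := by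
  obtain ⟨h1, h2, h3, h4⟩ := albe_bd (x := 0.66) (el := 1.934792) (eu := 1.934793)
    (Ll := 0.506817) (Lu := 0.506818) (by norm_num) (by norm_num) (by norm_num) (by norm_num)
    (by norm_num) (by norm_num) (by norm_num) (by norm_num) (by norm_num) (by norm_num)
    (by norm_num)
  norm_num at h1 h2 h3 h4 ⊢
  refine ⟨?_, ?_, ?_, ?_⟩ <;> linarith

lemma ab4 : 0.272341 ≤ al 0.52 ∧ al 0.52 ≤ 0.272343 ∧ 0.483943 ≤ be 0.52 ∧ be 0.52 ≤ 0.483947 := by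
  obtain ⟨h1, h2, h3, h4⟩ := albe_bd (x := 0.52) (el := 1.682027) (eu := 1.682028)
    (Ll := 0.418710) (Lu := 0.418711) (by norm_num) (by norm_num) (by norm_num) (by norm_num)
    (by norm_num) (by norm_num) (by norm_num) (by norm_num) (by norm_num) (by norm_num)
    (by norm_num)
  norm_num at h1 h2 h3 h4 ⊢
  refine ⟨?_, ?_, ?_, ?_⟩ <;> linarith

lemma ab5 : 0.190225 ≤ al 0.37 ∧ al 0.37 ≤ 0.190227 ∧ 0.283026 ≤ be 0.37 ∧ be 0.37 ≤ 0.283029 := by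
  obtain ⟨h1, h2, h3, h4⟩ := albe_bd (x := 0.37) (el := 1.447734) (eu := 1.447735)
    (Ll := 0.314810) (Lu := 0.314811) (by norm_num) (by norm_num) (by norm_num) (by norm_num)
    (by norm_num) (by norm_num) (by norm_num) (by norm_num) (by norm_num) (by norm_num)
    (by norm_num)
  norm_num at h1 h2 h3 h4 ⊢
  refine ⟨?_, ?_, ?_, ?_⟩ <;> linarith

lemma ab6 : 0.101011 ≤ al 0.2 ∧ al 0.2 ≤ 0.101013 ∧ 0.124318 ≤ be 0.2 ∧ be 0.2 ≤ 0.124319 := by
  obtain ⟨h1, h2, h3, h4⟩ := albe_bd (x := 0.2) (el := 1.221402) (eu := 1.221403)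
    (Ll := 0.182321) (Lu := 0.182322) (by norm_num) (by norm_num) (by norm_num) (by norm_num)
    (by norm_num) (by norm_num) (by norm_num) (by norm_num) (by norm_num) (by norm_num)
    (by norm_num)
  norm_num at h1 h2 h3 h4 ⊢
  refine ⟨?_, ?_, ?_, ?_⟩ <;> linarith

/-- intervals for `sin t`, `sin 2t`, `sin 3t` -/
lemma trig_bd {t sl su cl cu : ℝ} (ht : 0 ≤ t)
    (h1 : sl ≤ t - t ^ 3 / 6 + t ^ 5 / 120 - t ^ 7 / 5040 + t ^ 9 / 362880 - t ^ 11 / 39916800)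
    (h2 : t - t ^ 3 / 6 + t ^ 5 / 120 - t ^ 7 / 5040 + t ^ 9 / 362880 ≤ su)
    (h3 : cl ≤ 1 - t ^ 2 / 2 + t ^ 4 / 24 - t ^ 6 / 720 + t ^ 8 / 40320 - t ^ 10 / 3628800)
    (h4 : 1 - t ^ 2 / 2 + t ^ 4 / 24 - t ^ 6 / 720 + t ^ 8 / 40320 - t ^ 10 / 3628800 +
      t ^ 12 / 479001600 ≤ cu) (h5 : 0 ≤ sl) (h6 : 0 ≤ cl) :
    sl ≤ sin t ∧ sin t ≤ su ∧ 2 * sl * cl ≤ sin (2 * t) ∧ sin (2 * t) ≤ 2 * su * cu ∧
    3 * sl - 4 * su ^ 3 ≤ sin (3 * t) ∧ sin (3 * t) ≤ 3 * su - 4 * sl ^ 3 := by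
  obtain ⟨a1, a2, a3, a4⟩ := sincos_bd t ht
  have b1 := h1.trans a1
  have b2 := a2.trans h2
  have b3 := h3.trans a3
  have b4 := a4.trans h4
  obtain ⟨c1, c2⟩ := sin2_bd b1 b2 b3 b4 h5 h6
  obtain ⟨d1, d2⟩ := sin3_bd b1 b2 h5
  exact ⟨b1, b2, c1, c2, d1, d2⟩

lemma tr1 : 0.198669 ≤ sin 0.2 ∧ sin 0.2 ≤ 0.198670 ∧ 0.389417 ≤ sin (2 * 0.2) ∧
    sin (2 * 0.2) ≤ 0.389421 ∧ 0.564640 ≤ sin (3 * 0.2) ∧ sin (3 * 0.2) ≤ 0.564646 := by
  obtain ⟨h1, h2, h3, h4, h5, h6⟩ := trig_bd (t := 0.2) (sl := 0.198669) (su := 0.198670)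
    (cl := 0.980066) (cu := 0.980067) (by norm_num) (by norm_num) (by norm_num) (by norm_num)
    (by norm_num) (by norm_num) (by norm_num)
  refine ⟨h1, h2, le_trans (by norm_num) h3, h4.trans (by norm_num), le_trans (by norm_num) h5,
    h6.trans (by norm_num)⟩

lemma tr2 : 0.342897 ≤ sin 0.35 ∧ sin 0.35 ≤ 0.342898 ∧ 0.644215 ≤ sin (2 * 0.35) ∧
    sin (2 * 0.35) ≤ 0.644220 ∧ 0.867419 ≤ sin (3 * 0.35) ∧ sin (3 * 0.35) ≤ 0.867426 := by
  obtain ⟨h1, h2, h3, h4, h5, h6⟩ := trig_bd (t := 0.35) (sl := 0.342897) (su := 0.342898)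
    (cl := 0.939372) (cu := 0.939373) (by norm_num) (by norm_num) (by norm_num) (by norm_num)
    (by norm_num) (by norm_num) (by norm_num)
  refine ⟨h1, h2, le_trans (by norm_num) h3, h4.trans (by norm_num), le_trans (by norm_num) h5,
    h6.trans (by norm_num)⟩

lemma tr3 : 0.479425 ≤ sin 0.5 ∧ sin 0.5 ≤ 0.479426 ∧ 0.841468 ≤ sin (2 * 0.5) ∧
    sin (2 * 0.5) ≤ 0.841474 ∧ 0.997491 ≤ sin (3 * 0.5) ∧ sin (3 * 0.5) ≤ 0.997499 := by
  obtain ⟨h1, h2, h3, h4, h5, h6⟩ := trig_bd (t := 0.5) (sl := 0.479425) (su := 0.479426)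
    (cl := 0.877582) (cu := 0.877583) (by norm_num) (by norm_num) (by norm_num) (by norm_num)
    (by norm_num) (by norm_num) (by norm_num)
  refine ⟨h1, h2, le_trans (by norm_num) h3, h4.trans (by norm_num), le_trans (by norm_num) h5,
    h6.trans (by norm_num)⟩

lemma tr4 : 0.605186 ≤ sin 0.65 ∧ sin 0.65 ≤ 0.605187 ∧ 0.963555 ≤ sin (2 * 0.65) ∧
    sin (2 * 0.65) ≤ 0.963561 ∧ 0.928954 ≤ sin (3 * 0.65) ∧ sin (3 * 0.65) ≤ 0.928965 := by
  obtain ⟨h1, h2, h3, h4, h5, h6⟩ := trig_bd (t := 0.65) (sl := 0.605186) (su := 0.605187)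
    (cl := 0.796083) (cu := 0.796084) (by norm_num) (by norm_num) (by norm_num) (by norm_num)
    (by norm_num) (by norm_num) (by norm_num)
  refine ⟨h1, h2, le_trans (by norm_num) h3, h4.trans (by norm_num), le_trans (by norm_num) h5,
    h6.trans (by norm_num)⟩

lemma tr5 : 0.751280 ≤ sin 0.85 ∧ sin 0.85 ≤ 0.751281 ∧ 0.991663 ≤ sin (2 * 0.85) ∧
    sin (2 * 0.85) ≤ 0.991668 ∧ 0.557677 ≤ sin (3 * 0.85) ∧ sin (3 * 0.85) ≤ 0.557690 := by
  obtain ⟨h1, h2, h3, h4, h5, h6⟩ := trig_bd (t := 0.85) (sl := 0.751280) (su := 0.751281)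
    (cl := 0.659983) (cu := 0.659984) (by norm_num) (by norm_num) (by norm_num) (by norm_num)
    (by norm_num) (by norm_num) (by norm_num)
  refine ⟨h1, h2, le_trans (by norm_num) h3, h4.trans (by norm_num), le_trans (by norm_num) h5,
    h6.trans (by norm_num)⟩

lemma tr6 : 0.891207 ≤ sin 1.1 ∧ sin 1.1 ≤ 0.891208 ∧ 0.808494 ≤ sin (2 * 1.1) ∧
    sin (2 * 1.1) ≤ 0.808500 ∧ -0.157754 ≤ sin (3 * 1.1) ∧ sin (3 * 1.1) ≤ -0.157739 := by
  obtain ⟨h1, h2, h3, h4, h5, h6⟩ := trig_bd (t := 1.1) (sl := 0.891207) (su := 0.891208)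
    (cl := 0.453596) (cu := 0.453597) (by norm_num) (by norm_num) (by norm_num) (by norm_num)
    (by norm_num) (by norm_num) (by norm_num)
  refine ⟨h1, h2, le_trans (by norm_num) h3, h4.trans (by norm_num), le_trans (by norm_num) h5,
    h6.trans (by norm_num)⟩

lemma mul_lo {a s l m : ℝ} (ha : l ≤ a) (hl : 0 ≤ l) (hs : m ≤ s) (hm : 0 ≤ m) :
    l * m ≤ a * s := mul_le_mul ha hs hm (hl.trans ha)

lemma mul_hi {a s l m : ℝ} (ha : a ≤ l) (ha0 : 0 ≤ a) (hs : s ≤ m) (hs0 : 0 ≤ s) :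
    a * s ≤ l * m := mul_le_mul ha hs hs0 (ha0.trans ha)

lemma mul_lo_neg {a s u m : ℝ} (ha : a ≤ u) (ha0 : 0 ≤ a) (hs : m ≤ s) (hm : m ≤ 0) :
    u * m ≤ a * s := by
  have h1 : u * m ≤ a * m := mul_le_mul_of_nonpos_right ha hm
  have h2 : a * m ≤ a * s := mul_le_mul_of_nonneg_left hs ha0
  exact h1.trans h2

lemma mul_hi_neg {a s l m : ℝ} (ha : l ≤ a) (ha0 : 0 ≤ a) (hs : s ≤ m) (hm : m ≤ 0) :
    a * s ≤ l * m := by
  have h1 : a * s ≤ a * m := mul_le_mul_of_nonneg_left hs ha0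
  have h2 : a * m ≤ l * m := mul_le_mul_of_nonpos_right ha hm
  exact h1.trans h2

lemma conc {a b e l r x : ℝ} (ha : 0 ≤ a) (hlr : l < r) (hl : l ≤ x) (hr : x ≤ r)
    (h1 : 0 ≤ -a * l ^ 2 + b * l + e) (h2 : 0 ≤ -a * r ^ 2 + b * r + e) :
    0 ≤ -a * x ^ 2 + b * x + e := by
  have key : (-a * x ^ 2 + b * x + e) * (r - l) =
      (-a * l ^ 2 + b * l + e) * (r - x) + (-a * r ^ 2 + b * r + e) * (x - l) +
        a * ((x - l) * (r - x)) * (r - l) := by ring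
  have hp : 0 ≤ (-a * x ^ 2 + b * x + e) * (r - l) := by
    rw [key]
    have p1 := mul_nonneg h1 (sub_nonneg.2 hr)
    have p2 := mul_nonneg h2 (sub_nonneg.2 hl)
    have p3 := mul_nonneg (mul_nonneg ha (mul_nonneg (sub_nonneg.2 hl) (sub_nonneg.2 hr)))
      (sub_pos.2 hlr).le
    linarith
  exact nonneg_of_mul_nonneg_left hp (sub_pos.2 hlr)

/-- the final polynomial inequality -/
lemma final_poly {R ρ u : ℝ} (hR : 0.5997 ≤ R) (hR' : R ≤ 0.6) (hρ : 0.9962 ≤ ρ)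
    (hρ' : ρ ≤ 1.01) (hu : 0 ≤ u) (hu' : u ≤ 0.0258) :
    0 ≤ (0.31898 + (1 - 2 * u) * 0.19452) - (R ^ 2 + ρ ^ 2) * (0.71185 + (1 - 2 * u) * 0.50389) +
      2 * R * ρ * (0.65309 + (1 - 2 * u) * 0.49025) -
      3.1416 * (0.0735 - 0.34 * (ρ - 1) - 0.06 * (ρ ^ 2 * u)) := by
  have hB : 0 ≤ 0.71185 + (1 - 2 * u) * 0.50389 := by linarith
  have corner : ∀ R' : ℝ, (R' = 0.5997 ∨ R' = 0.6) →
      0 ≤ (0.31898 + (1 - 2 * u) * 0.19452) -
        (R' ^ 2 + ρ ^ 2) * (0.71185 + (1 - 2 * u) * 0.50389) +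
        2 * R' * ρ * (0.65309 + (1 - 2 * u) * 0.49025) -
        3.1416 * (0.0735 - 0.34 * (ρ - 1) - 0.06 * (ρ ^ 2 * u)) := by
    intro R' hR'
    have h := conc (a := (0.71185 + (1 - 2 * u) * 0.50389) - 3.1416 * 0.06 * u)
      (b := 2 * R' * (0.65309 + (1 - 2 * u) * 0.49025) + 3.1416 * 0.34)
      (e := (0.31898 + (1 - 2 * u) * 0.19452) - R' ^ 2 * (0.71185 + (1 - 2 * u) * 0.50389) -
        3.1416 * (0.0735 + 0.34)) (l := 0.9962) (r := 1.01) (x := ρ)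
      (by linarith) (by norm_num) hρ hρ'
      (by rcases hR' with h | h <;> rw [h] <;> linarith)
      (by rcases hR' with h | h <;> rw [h] <;> linarith)
    refine h.trans (le_of_eq ?_)
    ring
  have h := conc (a := 0.71185 + (1 - 2 * u) * 0.50389)
    (b := 2 * ρ * (0.65309 + (1 - 2 * u) * 0.49025))
    (e := (0.31898 + (1 - 2 * u) * 0.19452) - ρ ^ 2 * (0.71185 + (1 - 2 * u) * 0.50389) -
      3.1416 * (0.0735 - 0.34 * (ρ - 1) - 0.06 * (ρ ^ 2 * u))) (l := 0.5997) (r := 0.6) (x := R)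
    hB (by norm_num) hR hR'
    (by refine (corner 0.5997 (Or.inl rfl)).trans (le_of_eq ?_); ring)
    (by refine (corner 0.6 (Or.inr rfl)).trans (le_of_eq ?_); ring)
  refine h.trans (le_of_eq ?_)
  ring

/-- the algebraic identity behind the assembly -/
lemma assemble (A1 A2 A3 A4 A5 A6 B1 B2 B3 B4 B5 B6 S1 S2 S3 S4 S5 S6
    D1 D2 D3 D4 D5 D6 T1 T2 T3 T4 T5 T6 c q R ρ : ℝ) :
    2 * ((A1 * 0.2 + A2 * 0.15 + A3 * 0.15 + A4 * 0.15 + A5 * 0.2 + A6 * 0.25) +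
      c * (A1 * ((D1 - 0) / 2) + A2 * ((D2 - D1) / 2) + A3 * ((D3 - D2) / 2) +
        A4 * ((D4 - D3) / 2) + A5 * ((D5 - D4) / 2) + A6 * ((D6 - D5) / 2)) -
      q * ((B1 * 0.2 + B2 * 0.15 + B3 * 0.15 + B4 * 0.15 + B5 * 0.2 + B6 * 0.25) +
        c * (B1 * ((D1 - 0) / 2) + B2 * ((D2 - D1) / 2) + B3 * ((D3 - D2) / 2) +
        B4 * ((D4 - D3) / 2) + B5 * ((D5 - D4) / 2) + B6 * ((D6 - D5) / 2))) +
      2 * R * ρ * ((B1 * (S1 - 0) + B2 * (S2 - S1) + B3 * (S3 - S2) + B4 * (S4 - S3) +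
        B5 * (S5 - S4) + B6 * (S6 - S5)) +
        c * (B1 * ((T1 - 0) / 6 + (S1 - 0) / 2) + B2 * ((T2 - T1) / 6 + (S2 - S1) / 2) +
        B3 * ((T3 - T2) / 6 + (S3 - S2) / 2) + B4 * ((T4 - T3) / 6 + (S4 - S3) / 2) +
        B5 * ((T5 - T4) / 6 + (S5 - S4) / 2) + B6 * ((T6 - T5) / 6 + (S6 - S5) / 2)))) =
    2 * ((A1 - B1 * q) * ((0.2 - 0) + c * ((D1 - 0) / 2)) +
        2 * R * ρ * B1 * ((S1 - 0) + c * ((T1 - 0) / 6 + (S1 - 0) / 2))) +
      2 * ((A2 - B2 * q) * ((0.35 - 0.2) + c * ((D2 - D1) / 2)) +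
        2 * R * ρ * B2 * ((S2 - S1) + c * ((T2 - T1) / 6 + (S2 - S1) / 2))) +
      2 * ((A3 - B3 * q) * ((0.5 - 0.35) + c * ((D3 - D2) / 2)) +
        2 * R * ρ * B3 * ((S3 - S2) + c * ((T3 - T2) / 6 + (S3 - S2) / 2))) +
      2 * ((A4 - B4 * q) * ((0.65 - 0.5) + c * ((D4 - D3) / 2)) +
        2 * R * ρ * B4 * ((S4 - S3) + c * ((T4 - T3) / 6 + (S4 - S3) / 2))) +
      2 * ((A5 - B5 * q) * ((0.85 - 0.65) + c * ((D5 - D4) / 2)) +
        2 * R * ρ * B5 * ((S5 - S4) + c * ((T5 - T4) / 6 + (S5 - S4) / 2))) +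
      2 * ((A6 - B6 * q) * ((1.1 - 0.85) + c * ((D6 - D5) / 2)) +
        2 * R * ρ * B6 * ((S6 - S5) + c * ((T6 - T5) / 6 + (S6 - S5) / 2))) := by
  norm_num
  ring

/-- LC-14: one point; `b` is the angle of the point from the axis, `Y = ρ sin b`. -/
theorem numA1 {R ρ b : ℝ} (hR : 0.5997 ≤ R) (hR' : R ≤ 0.6) (hρ : 0.9962 ≤ ρ) (hρ' : ρ ≤ 1.01)
    (hb : |ρ * Real.sin b| ≤ 0.16) {V : ℝ → ℝ} (hV : Continuous V)
    (hVx : ∀ θ, |θ - b| ≤ 1.1 → ∀ x, 0 ≤ x →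
      aff x (R ^ 2 + ρ ^ 2 - 2 * R * ρ * Real.cos (θ - b)) ≤ V θ) :
    2 * Real.pi * (0.0735 - 0.34 * (ρ - 1) - 0.06 * (ρ * Real.sin b) ^ 2) ≤
      ∫ θ in (b - 1.1)..(b + 1.1), (1 + Real.cos (2 * θ)) * V θ := by
  -- fold the integral
  have hg : Continuous (fun θ => (1 + cos (2 * θ)) * V θ) := by fun_prop
  rw [fold hg]
  have hgc : Continuous (fun t => (1 + cos (2 * (b + t))) * V (b + t) +
      (1 + cos (2 * (b - t))) * V (b - t)) := by fun_prop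
  set g : ℝ → ℝ := fun t => (1 + cos (2 * (b + t))) * V (b + t) +
      (1 + cos (2 * (b - t))) * V (b - t) with hgdef
  have hi : ∀ p q, IntervalIntegrable g volume p q := fun p q => hgc.intervalIntegrable p q
  have hsplit : ∫ t in (0 : ℝ)..1.1, g t = (∫ t in (0 : ℝ)..0.2, g t) + (∫ t in (0.2 : ℝ)..0.35, g t) +
      (∫ t in (0.35 : ℝ)..0.5, g t) + (∫ t in (0.5 : ℝ)..0.65, g t) +
      (∫ t in (0.65 : ℝ)..0.85, g t) + (∫ t in (0.85 : ℝ)..1.1, g t) := by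
    rw [intervalIntegral.integral_add_adjacent_intervals (hi _ _) (hi _ _),
      intervalIntegral.integral_add_adjacent_intervals (hi _ _) (hi _ _),
      intervalIntegral.integral_add_adjacent_intervals (hi _ _) (hi _ _),
      intervalIntegral.integral_add_adjacent_intervals (hi _ _) (hi _ _),
      intervalIntegral.integral_add_adjacent_intervals (hi _ _) (hi _ _)]
  have p1 := piece hV hVx (x := 0.89) (t₁ := 0) (t₂ := 0.2) (by norm_num) (by norm_num)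
    (by norm_num) (by norm_num)
  have p2 := piece hV hVx (x := 0.79) (t₁ := 0.2) (t₂ := 0.35) (by norm_num) (by norm_num)
    (by norm_num) (by norm_num)
  have p3 := piece hV hVx (x := 0.66) (t₁ := 0.35) (t₂ := 0.5) (by norm_num) (by norm_num)
    (by norm_num) (by norm_num)
  have p4 := piece hV hVx (x := 0.52) (t₁ := 0.5) (t₂ := 0.65) (by norm_num) (by norm_num)
    (by norm_num) (by norm_num)
  have p5 := piece hV hVx (x := 0.37) (t₁ := 0.65) (t₂ := 0.85) (by norm_num) (by norm_num)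
    (by norm_num) (by norm_num)
  have p6 := piece hV hVx (x := 0.2) (t₁ := 0.85) (t₂ := 1.1) (by norm_num) (by norm_num)
    (by norm_num) (by norm_num)
  change _ ≤ ∫ t in (0 : ℝ)..0.2, g t at p1
  change _ ≤ ∫ t in (0.2 : ℝ)..0.35, g t at p2
  change _ ≤ ∫ t in (0.35 : ℝ)..0.5, g t at p3
  change _ ≤ ∫ t in (0.5 : ℝ)..0.65, g t at p4
  change _ ≤ ∫ t in (0.65 : ℝ)..0.85, g t at p5
  change _ ≤ ∫ t in (0.85 : ℝ)..1.1, g t at p6
  obtain ⟨x1, x1', y1, y1'⟩ := ab1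
  obtain ⟨x2, x2', y2, y2'⟩ := ab2
  obtain ⟨x3, x3', y3, y3'⟩ := ab3
  obtain ⟨x4, x4', y4, y4'⟩ := ab4
  obtain ⟨x5, x5', y5, y5'⟩ := ab5
  obtain ⟨x6, x6', y6, y6'⟩ := ab6
  obtain ⟨s1, s1', d1, d1', r1, r1'⟩ := tr1
  obtain ⟨s2, s2', d2, d2', r2, r2'⟩ := tr2
  obtain ⟨s3, s3', d3, d3', r3, r3'⟩ := tr3
  obtain ⟨s4, s4', d4, d4', r4, r4'⟩ := tr4
  obtain ⟨s5, s5', d5, d5', r5, r5'⟩ := tr5
  obtain ⟨s6, s6', d6, d6', r6, r6'⟩ := tr6
  rw [mul_zero, mul_zero, sin_zero] at p1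
  -- names
  generalize al 0.89 = A1 at *
  generalize al 0.79 = A2 at *
  generalize al 0.66 = A3 at *
  generalize al 0.52 = A4 at *
  generalize al 0.37 = A5 at *
  generalize al 0.2 = A6 at *
  generalize be 0.89 = B1 at *
  generalize be 0.79 = B2 at *
  generalize be 0.66 = B3 at *
  generalize be 0.52 = B4 at *
  generalize be 0.37 = B5 at *
  generalize be 0.2 = B6 at *
  generalize sin 0.2 = S1 at *
  generalize sin 0.35 = S2 at *
  generalize sin 0.5 = S3 at *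
  generalize sin 0.65 = S4 at *
  generalize sin 0.85 = S5 at *
  generalize sin 1.1 = S6 at *
  generalize sin (2 * 0.2) = D1 at *
  generalize sin (2 * 0.35) = D2 at *
  generalize sin (2 * 0.5) = D3 at *
  generalize sin (2 * 0.65) = D4 at *
  generalize sin (2 * 0.85) = D5 at *
  generalize sin (2 * 1.1) = D6 at *
  generalize sin (3 * 0.2) = T1 at *
  generalize sin (3 * 0.35) = T2 at *
  generalize sin (3 * 0.5) = T3 at *
  generalize sin (3 * 0.65) = T4 at *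
  generalize sin (3 * 0.85) = T5 at *
  generalize sin (3 * 1.1) = T6 at *
  -- the six constants
  have ha0 : 0.31898 ≤ A1 * 0.2 + A2 * 0.15 + A3 * 0.15 + A4 * 0.15 + A5 * 0.2 + A6 * 0.25 := by
    linarith
  have hb0 : B1 * 0.2 + B2 * 0.15 + B3 * 0.15 + B4 * 0.15 + B5 * 0.2 + B6 * 0.25 ≤ 0.71185 := by
    linarith
  have ha1 : 0.19452 ≤ A1 * ((D1 - 0) / 2) + A2 * ((D2 - D1) / 2) + A3 * ((D3 - D2) / 2) +
      A4 * ((D4 - D3) / 2) + A5 * ((D5 - D4) / 2) + A6 * ((D6 - D5) / 2) := by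
    have q1 := mul_lo (s := (D1 - 0) / 2) (m := 0.1947085) x1 (by norm_num) (by linarith) (by norm_num)
    have q2 := mul_lo (s := (D2 - D1) / 2) (m := 0.127397) x2 (by norm_num) (by linarith) (by norm_num)
    have q3 := mul_lo (s := (D3 - D2) / 2) (m := 0.098624) x3 (by norm_num) (by linarith) (by norm_num)
    have q4 := mul_lo (s := (D4 - D3) / 2) (m := 0.0610405) x4 (by norm_num) (by linarith) (by norm_num)
    have q5 := mul_lo (s := (D5 - D4) / 2) (m := 0.014051) x5 (by norm_num) (by linarith) (by norm_num)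
    have q6 := mul_lo_neg (s := (D6 - D5) / 2) (m := -0.091587) x6' (by linarith) (by linarith)
      (by norm_num)
    norm_num at q1 q2 q3 q4 q5 q6 ⊢
    linarith
  have hb1 : B1 * ((D1 - 0) / 2) + B2 * ((D2 - D1) / 2) + B3 * ((D3 - D2) / 2) +
      B4 * ((D4 - D3) / 2) + B5 * ((D5 - D4) / 2) + B6 * ((D6 - D5) / 2) ≤ 0.50389 := by
    have q1 := mul_hi (s := (D1 - 0) / 2) (m := 0.194711) y1' (by linarith) (by linarith) (by linarith)
    have q2 := mul_hi (s := (D2 - D1) / 2) (m := 0.127402) y2' (by linarith) (by linarith) (by linarith)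
    have q3 := mul_hi (s := (D3 - D2) / 2) (m := 0.09863) y3' (by linarith) (by linarith) (by linarith)
    have q4 := mul_hi (s := (D4 - D3) / 2) (m := 0.061047) y4' (by linarith) (by linarith) (by linarith)
    have q5 := mul_hi (s := (D5 - D4) / 2) (m := 0.014057) y5' (by linarith) (by linarith) (by linarith)
    have q6 := mul_hi_neg (s := (D6 - D5) / 2) (m := -0.091581) y6 (by linarith) (by linarith)
      (by norm_num)
    norm_num at q1 q2 q3 q4 q5 q6 ⊢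
    linarith
  have hd0 : 0.65309 ≤ B1 * (S1 - 0) + B2 * (S2 - S1) + B3 * (S3 - S2) + B4 * (S4 - S3) +
      B5 * (S5 - S4) + B6 * (S6 - S5) := by
    have q1 := mul_lo (s := S1 - 0) (m := 0.198669) y1 (by norm_num) (by linarith) (by norm_num)
    have q2 := mul_lo (s := S2 - S1) (m := 0.144227) y2 (by norm_num) (by linarith) (by norm_num)
    have q3 := mul_lo (s := S3 - S2) (m := 0.136527) y3 (by norm_num) (by linarith) (by norm_num)
    have q4 := mul_lo (s := S4 - S3) (m := 0.12576) y4 (by norm_num) (by linarith) (by norm_num)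
    have q5 := mul_lo (s := S5 - S4) (m := 0.146093) y5 (by norm_num) (by linarith) (by norm_num)
    have q6 := mul_lo (s := S6 - S5) (m := 0.139926) y6 (by norm_num) (by linarith) (by norm_num)
    norm_num at q1 q2 q3 q4 q5 q6 ⊢
    linarith
  have hd1 : 0.49025 ≤ B1 * ((T1 - 0) / 6 + (S1 - 0) / 2) + B2 * ((T2 - T1) / 6 + (S2 - S1) / 2) +
      B3 * ((T3 - T2) / 6 + (S3 - S2) / 2) + B4 * ((T4 - T3) / 6 + (S4 - S3) / 2) +
      B5 * ((T5 - T4) / 6 + (S5 - S4) / 2) + B6 * ((T6 - T5) / 6 + (S6 - S5) / 2) := by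
    have q1 := mul_lo (s := (T1 - 0) / 6 + (S1 - 0) / 2) (m := 0.193441) y1 (by norm_num)
      (by linarith) (by norm_num)
    have q2 := mul_lo (s := (T2 - T1) / 6 + (S2 - S1) / 2) (m := 0.122575) y2 (by norm_num)
      (by linarith) (by norm_num)
    have q3 := mul_lo (s := (T3 - T2) / 6 + (S3 - S2) / 2) (m := 0.08994) y3 (by norm_num)
      (by linarith) (by norm_num)
    have q4 := mul_lo (s := (T4 - T3) / 6 + (S4 - S3) / 2) (m := 0.051455) y4 (by norm_num)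
      (by linarith) (by norm_num)
    have q5 := mul_lo (s := (T5 - T4) / 6 + (S5 - S4) / 2) (m := 0.011165) y5 (by norm_num)
      (by linarith) (by norm_num)
    have q6 := mul_lo_neg (s := (T6 - T5) / 6 + (S6 - S5) / 2) (m := -0.049278) y6' (by linarith)
      (by linarith) (by norm_num)
    norm_num at q1 q2 q3 q4 q5 q6 ⊢
    linarith
  -- assembly
  set u := sin b ^ 2 with hu
  have hc : cos (2 * b) = 1 - 2 * u := by
    rw [cos_two_mul, cos_sq', hu]; ring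
  have hu0 : 0 ≤ u := sq_nonneg _
  have hYu : (ρ * sin b) ^ 2 = ρ ^ 2 * u := by rw [hu]; ring
  have hYb : ρ ^ 2 * u ≤ 0.0256 := by
    rw [← hYu, ← sq_abs]
    have h := pow_le_pow_left₀ (abs_nonneg (ρ * sin b)) hb 2
    norm_num at h ⊢
    exact h
  have hρ2 : 0.9924 ≤ ρ ^ 2 := by
    have h := pow_le_pow_left₀ (by norm_num) hρ 2
    norm_num at h ⊢
    linarith
  have hu1 : u ≤ 0.0258 := by
    by_contra hcon
    push Not at hcon
    have : 0.9924 * 0.0258 ≤ ρ ^ 2 * u := mul_le_mul hρ2 hcon.le (by norm_num) (by positivity)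
    norm_num at this
    linarith
  have hpoly := final_poly hR hR' hρ hρ' hu0 hu1
  rw [hc] at p1 p2 p3 p4 p5 p6
  rw [hsplit]
  rw [hYu]
  have hX : 0 ≤ 0.0735 - 0.34 * (ρ - 1) - 0.06 * (ρ ^ 2 * u) := by linarith
  have hpi : 2 * Real.pi * (0.0735 - 0.34 * (ρ - 1) - 0.06 * (ρ ^ 2 * u)) ≤
      2 * (3.1416 * (0.0735 - 0.34 * (ρ - 1) - 0.06 * (ρ ^ 2 * u))) := by
    have h := mul_le_mul_of_nonneg_right Real.pi_lt_d4.le hX
    have h2 : 2 * Real.pi * (0.0735 - 0.34 * (ρ - 1) - 0.06 * (ρ ^ 2 * u)) =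
      2 * (Real.pi * (0.0735 - 0.34 * (ρ - 1) - 0.06 * (ρ ^ 2 * u))) := by ring
    rw [h2]
    linarith
  refine hpi.trans ?_
  have hc0 : 0 ≤ 1 - 2 * u := by linarith
  have hR0 : 0 ≤ R := by linarith
  have hρ0 : 0 ≤ ρ := by linarith
  have hq0 : 0 ≤ R ^ 2 + ρ ^ 2 := by positivity
  have hw0 : 0 ≤ 2 * R * ρ := by positivity
  have k1 := mul_le_mul_of_nonneg_left ha1 hc0
  have k2 := mul_le_mul_of_nonneg_left
    (add_le_add hb0 (mul_le_mul_of_nonneg_left hb1 hc0)) hq0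
  have k3 := mul_le_mul_of_nonneg_left
    (add_le_add hd0 (mul_le_mul_of_nonneg_left hd1 hc0)) hw0
  have hsum := add_le_add (add_le_add (add_le_add (add_le_add (add_le_add p1 p2) p3) p4) p5) p6
  refine le_trans ?_ hsum
  refine le_trans ?_ (le_of_eq (assemble A1 A2 A3 A4 A5 A6 B1 B2 B3 B4 B5 B6 S1 S2 S3 S4 S5 S6
    D1 D2 D3 D4 D5 D6 T1 T2 T3 T4 T5 T6 (1 - 2 * u) (R ^ 2 + ρ ^ 2) R ρ))
  linarith

end Helper83.LC
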